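import Pool.Agent.SST.SUnit

/-!
# Coarse isomorphism of word metrics on the integers given by sets of primes

The coarse groups of two nonempty sets of primes, at least one of them finite, are coarsely
isomorphic only if the sets are equal. The proof uses the theorem on S-unit equations, proved in
`Pool.Agent.SST` from the p-adic subspace theorem. The coarse part of the argument (up to
`mul_lipschitz`) is due to helper34.
-/

set_option autoImplicit false

namespace Pool.Agent.Results.MP_584ea6_al.FiniteSets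

/-- `Q^*`: the submonoid of the multiplicative monoid of the integers generated by `Q`, that is the
set of products of nonnegative powers of elements of `Q`. -/
def star (Q : Set ℕ) : Submonoid ℤ :=
  Submonoid.closure ((Nat.cast : ℕ → ℤ) '' Q)

/-- The word norm of the integer `x` for the symmetric generating set `Q^*` together with `-Q^*`:
the least length of a list of elements of `Q^*` and `-Q^*` with sum `x`. -/
noncomputable def wordNorm (Q : Set ℕ) (x : ℤ) : ℕ :=
  sInf {k : ℕ | ∃ l : List ℤ, l.length = k ∧ (∀ s ∈ l, s ∈ star Q ∨ -s ∈ star Q) ∧ l.sum = x}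

/-- The word metric `d_Q`. -/
noncomputable def wordDist (Q : Set ℕ) (m n : ℤ) : ℕ := wordNorm Q (m - n)

/-- A map is controlled if it maps pairs at bounded distance to pairs at bounded distance. -/
def Controlled (d d' : ℤ → ℤ → ℕ) (f : ℤ → ℤ) : Prop :=
  ∀ r : ℕ, ∃ R : ℕ, ∀ x y : ℤ, d x y ≤ r → d' (f x) (f y) ≤ R

/-- Coarse homomorphisms. -/
def IsCoarseHom (d d' : ℤ → ℤ → ℕ) (f : ℤ → ℤ) : Prop :=
  Controlled d d' f ∧ ∃ C : ℕ, ∀ x y : ℤ, d' (f (x + y)) (f x + f y) ≤ C

/-- Coarse isomorphisms: coarse homomorphisms with a controlled coarse inverse. -/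
def IsCoarseIso (d d' : ℤ → ℤ → ℕ) (f : ℤ → ℤ) : Prop :=
  IsCoarseHom d d' f ∧ ∃ g : ℤ → ℤ, Controlled d' d g ∧
    ∃ C : ℕ, (∀ x, d (g (f x)) x ≤ C) ∧ ∀ y, d' (f (g y)) y ≤ C

/-- The coarse groups given by two metrics on the integers are coarsely isomorphic. -/
def CoarselyIsomorphic (d d' : ℤ → ℤ → ℕ) : Prop := ∃ f : ℤ → ℤ, IsCoarseIso d d' f

/-! ### The word norm -/

lemma one_mem_star (Q : Set ℕ) : (1 : ℤ) ∈ star Q := Submonoid.one_mem _

lemma exists_list (Q : Set ℕ) (x : ℤ) :
    ∃ l : List ℤ, l.length = wordNorm Q x ∧ (∀ s ∈ l, s ∈ star Q ∨ -s ∈ star Q) ∧ l.sum = x := by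
  have hne : {k : ℕ | ∃ l : List ℤ, l.length = k ∧ (∀ s ∈ l, s ∈ star Q ∨ -s ∈ star Q) ∧
      l.sum = x}.Nonempty := by
    refine ⟨x.natAbs, List.replicate x.natAbs (SignType.sign x : ℤ), by simp, ?_, ?_⟩
    · intro s hs
      obtain ⟨h0, rfl⟩ := List.mem_replicate.1 hs
      rcases lt_trichotomy x 0 with h | h | h
      · right
        rw [sign_neg h]
        simp [one_mem_star Q]
      · exact absurd (by simp [h]) h0
      · left
        rw [sign_pos h]
        simp [one_mem_star Q]
    · rw [List.sum_replicate, nsmul_eq_mul, mul_comm]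
      rcases lt_trichotomy x 0 with h | h | h
      · rw [sign_neg h]
        simp
        rw [abs_of_neg h]
        ring
      · simp [h]
      · rw [sign_pos h]
        simp
        exact h.le
  exact Nat.sInf_mem hne

lemma wordNorm_le_length (Q : Set ℕ) (l : List ℤ) (hl : ∀ s ∈ l, s ∈ star Q ∨ -s ∈ star Q) :
    wordNorm Q l.sum ≤ l.length :=
  Nat.sInf_le ⟨l, rfl, hl, rfl⟩

lemma wordNorm_zero (Q : Set ℕ) : wordNorm Q 0 = 0 := by
  have := wordNorm_le_length Q [] (by simp)
  simpa using this

lemma wordNorm_add (Q : Set ℕ) (x y : ℤ) : wordNorm Q (x + y) ≤ wordNorm Q x + wordNorm Q y := by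
  obtain ⟨l, hl, h1, h2⟩ := exists_list Q x
  obtain ⟨m, hm, h3, h4⟩ := exists_list Q y
  have := wordNorm_le_length Q (l ++ m) (by
    intro s hs
    rcases List.mem_append.1 hs with h | h
    · exact h1 s h
    · exact h3 s h)
  rw [List.sum_append, List.length_append, h2, h4, hl, hm] at this
  exact this

lemma wordNorm_star_mul (Q : Set ℕ) {c : ℤ} (hc : c ∈ star Q) (x : ℤ) :
    wordNorm Q (c * x) ≤ wordNorm Q x := by
  obtain ⟨l, hl, h1, h2⟩ := exists_list Q x
  have := wordNorm_le_length Q (l.map (c * ·)) (by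
    intro s hs
    obtain ⟨t, ht, rfl⟩ := List.mem_map.1 hs
    rcases h1 t ht with h | h
    · exact Or.inl (mul_mem hc h)
    · right
      rw [← mul_neg]
      exact mul_mem hc h)
  rw [List.sum_map_mul_left, List.length_map] at this
  simp only [List.map_id'] at this
  rw [h2, hl] at this
  exact this

lemma wordNorm_neg_le (Q : Set ℕ) (x : ℤ) : wordNorm Q (-x) ≤ wordNorm Q x := by
  obtain ⟨l, hl, h1, h2⟩ := exists_list Q x
  have := wordNorm_le_length Q (l.map (-1 * ·)) (by
    intro s hs
    obtain ⟨t, ht, rfl⟩ := List.mem_map.1 hs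
    rcases h1 t ht with h | h
    · right
      rwa [neg_mul, one_mul, neg_neg]
    · left
      rwa [neg_mul, one_mul])
  rw [List.sum_map_mul_left, List.length_map] at this
  simp only [List.map_id'] at this
  rw [h2, hl, neg_mul, one_mul] at this
  exact this

lemma wordNorm_neg (Q : Set ℕ) (x : ℤ) : wordNorm Q (-x) = wordNorm Q x :=
  le_antisymm (wordNorm_neg_le Q x) (by simpa using wordNorm_neg_le Q (-x))

lemma wordNorm_sub_comm (Q : Set ℕ) (x y : ℤ) : wordNorm Q (x - y) = wordNorm Q (y - x) := by
  rw [← wordNorm_neg, neg_sub]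

lemma wordNorm_nat_mul (Q : Set ℕ) (m : ℕ) (x : ℤ) : wordNorm Q (m * x) ≤ m * wordNorm Q x := by
  induction m with
  | zero => simp [wordNorm_zero]
  | succ m ih =>
    have h : ((m + 1 : ℕ) : ℤ) * x = m * x + x := by push_cast; ring
    rw [h]
    calc wordNorm Q (m * x + x) ≤ wordNorm Q (m * x) + wordNorm Q x := wordNorm_add _ _ _
      _ ≤ m * wordNorm Q x + wordNorm Q x := by omega
      _ = (m + 1) * wordNorm Q x := by ring

lemma wordNorm_le_add_sub (Q : Set ℕ) (x y : ℤ) :
    wordNorm Q x ≤ wordNorm Q y + wordNorm Q (x - y) := by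
  have := wordNorm_add Q y (x - y)
  rwa [add_sub_cancel] at this

lemma wordNorm_tri (Q : Set ℕ) (x y z : ℤ) :
    wordNorm Q (x - z) ≤ wordNorm Q (x - y) + wordNorm Q (y - z) := by
  have := wordNorm_add Q (x - y) (y - z)
  rwa [sub_add_sub_cancel] at this

/-- Controlled maps between the Cayley graphs are Lipschitz. -/
lemma lipschitz_of_controlled {Q Q' : Set ℕ} {f : ℤ → ℤ}
    (hf : Controlled (wordDist Q) (wordDist Q') f) :
    ∃ R : ℕ, ∀ x y : ℤ, wordNorm Q' (f x - f y) ≤ R * wordNorm Q (x - y) := by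
  obtain ⟨R, hR⟩ := hf 1
  refine ⟨R, ?_⟩
  have key : ∀ l : List ℤ, (∀ s ∈ l, s ∈ star Q ∨ -s ∈ star Q) → ∀ y : ℤ,
      wordNorm Q' (f (l.sum + y) - f y) ≤ R * l.length := by
    intro l
    induction l with
    | nil => intro _ y; simp [wordNorm_zero]
    | cons a l ih =>
      intro hl y
      have h1 := ih (fun s hs => hl s (List.mem_cons_of_mem _ hs)) y
      have h2 : wordNorm Q' (f (a + (l.sum + y)) - f (l.sum + y)) ≤ R := by
        apply hR
        have := wordNorm_le_length Q [a] (by
          intro s hs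
          rw [List.mem_singleton] at hs
          subst hs
          exact hl s List.mem_cons_self)
        simpa [wordDist] using this
      rw [List.sum_cons, List.length_cons, add_assoc]
      calc wordNorm Q' (f (a + (l.sum + y)) - f y)
          ≤ wordNorm Q' (f (a + (l.sum + y)) - f (l.sum + y))
            + wordNorm Q' (f (l.sum + y) - f y) := wordNorm_tri _ _ _ _
        _ ≤ R + R * l.length := by omega
        _ = R * (l.length + 1) := by ring
  intro x y
  obtain ⟨l, hl, h1, h2⟩ := exists_list Q (x - y)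
  have := key l h1 y
  rwa [h2, hl, sub_add_cancel] at this

/-- A coarse inverse of a coarse isomorphism is a coarse isomorphism. -/
lemma coarselyIsomorphic_symm {Q Q' : Set ℕ}
    (h : CoarselyIsomorphic (wordDist Q) (wordDist Q')) :
    CoarselyIsomorphic (wordDist Q') (wordDist Q) := by
  obtain ⟨f, ⟨hf, C, hC⟩, g, hg, D, hD1, hD2⟩ := h
  refine ⟨g, ⟨hg, ?_⟩, f, hf, D, hD2, hD1⟩
  obtain ⟨R, hR⟩ := lipschitz_of_controlled hg
  refine ⟨R * (C + D + D + D) + D, fun x y => ?_⟩
  have h1 : wordNorm Q' ((x + y) - f (g x + g y)) ≤ C + D + D + D := by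
    have e1 : wordNorm Q' (f (g x + g y) - (f (g x) + f (g y))) ≤ C := hC _ _
    have e2 : wordNorm Q' (f (g x) - x) ≤ D := hD2 _
    have e3 : wordNorm Q' (f (g y) - y) ≤ D := hD2 _
    have e4 : (x + y) - f (g x + g y)
        = -((f (g x + g y) - (f (g x) + f (g y))) + ((f (g x) - x) + (f (g y) - y))) := by ring
    rw [e4, wordNorm_neg]
    refine (wordNorm_add _ _ _).trans ?_
    have := wordNorm_add Q' (f (g x) - x) (f (g y) - y)
    omega
  have h2 : wordNorm Q (g (x + y) - g (f (g x + g y))) ≤ R * (C + D + D + D) :=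
    (hR _ _).trans (Nat.mul_le_mul_left _ h1)
  have h3 : wordNorm Q (g (f (g x + g y)) - (g x + g y)) ≤ D := hD1 _
  have h4 := wordNorm_tri Q (g (x + y)) (g (f (g x + g y))) (g x + g y)
  show wordNorm Q (g (x + y) - (g x + g y)) ≤ _
  omega

/-- The coarse part of the argument: if `c` lies in `Q^*`, then multiplication by `c` is
large-scale Lipschitz for the metric of `Q'`, with a multiplicative constant that does not depend
on `c`. -/
lemma mul_lipschitz {Q Q' : Set ℕ} (h : CoarselyIsomorphic (wordDist Q) (wordDist Q')) :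
    ∃ B : ℕ, ∀ c : ℕ, (c : ℤ) ∈ star Q → ∃ D : ℕ, ∀ y : ℤ,
      wordNorm Q' (c * y) ≤ B * wordNorm Q' y + D := by
  obtain ⟨f, ⟨hf, C, hC⟩, g, hg, A, hA1, hA2⟩ := h
  obtain ⟨R, hR⟩ := lipschitz_of_controlled hf
  obtain ⟨S, hS⟩ := lipschitz_of_controlled hg
  refine ⟨R * S, fun c hc => ?_⟩
  -- the defect of homogeneity
  have hhom : ∀ (m : ℕ) (x : ℤ), wordNorm Q' (m * f x - f (m * x)) ≤ m * C + wordNorm Q' (f 0) := by
    intro m x
    induction m with
    | zero =>
      simp only [Nat.cast_zero, zero_mul, zero_sub, wordNorm_neg]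
      omega
    | succ m ih =>
      have e1 : wordNorm Q' (f (m * x + x) - (f (m * x) + f x)) ≤ C := hC _ _
      have e2 : ((m + 1 : ℕ) : ℤ) * f x - f (((m + 1 : ℕ) : ℤ) * x)
          = (m * f x - f (m * x)) + -(f (m * x + x) - (f (m * x) + f x)) := by
        have : (((m + 1 : ℕ) : ℤ) * x) = m * x + x := by push_cast; ring
        rw [this]
        push_cast
        ring
      rw [e2]
      refine (wordNorm_add _ _ _).trans ?_
      rw [wordNorm_neg]
      have : (m + 1) * C = m * C + C := by ring
      omega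
  refine ⟨c * A + (c * C + wordNorm Q' (f 0)) + wordNorm Q' (f 0) + R * wordNorm Q (g 0), ?_⟩
  intro y
  have e0 : (c : ℤ) * y = (c * (y - f (g y))) + ((c * f (g y) - f (c * g y)) +
      ((f (c * g y) - f 0) + f 0)) := by ring
  have e1 : wordNorm Q' (c * (y - f (g y))) ≤ c * A := by
    refine (wordNorm_nat_mul _ _ _).trans (Nat.mul_le_mul_left _ ?_)
    rw [wordNorm_sub_comm]
    exact hA2 y
  have e2 := hhom c (g y)
  have e3 : wordNorm Q' (f (c * g y) - f 0) ≤ R * wordNorm Q (g y) := by
    refine (hR _ _).trans (Nat.mul_le_mul_left _ ?_)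
    rw [sub_zero]
    exact wordNorm_star_mul Q hc _
  have e4 : wordNorm Q (g y) ≤ wordNorm Q (g 0) + S * wordNorm Q' y := by
    refine (wordNorm_le_add_sub Q (g y) (g 0)).trans ?_
    have := hS y 0
    rw [sub_zero] at this
    omega
  have e5 : R * wordNorm Q (g y) ≤ R * wordNorm Q (g 0) + R * S * wordNorm Q' y := by
    calc R * wordNorm Q (g y) ≤ R * (wordNorm Q (g 0) + S * wordNorm Q' y) :=
          Nat.mul_le_mul_left _ e4
      _ = _ := by ring
  rw [e0]
  have f1 := wordNorm_add Q' (c * (y - f (g y))) ((c * f (g y) - f (c * g y)) +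
      ((f (c * g y) - f 0) + f 0))
  have f2 := wordNorm_add Q' (c * f (g y) - f (c * g y)) ((f (c * g y) - f 0) + f 0)
  have f3 := wordNorm_add Q' (f (c * g y) - f 0) (f 0)
  omega

/-! ### Consequences of the theorem on S-unit equations -/

open Pool.Agent.SST (SUnit sunit_finite)

/-- One finite set of ratios for all nondegenerate zero sums with at most `n` terms. -/
lemma unif (n : ℕ) (S : Finset ℕ) : ∃ F : Set ℚ, F.Finite ∧ ∀ (ι : Type) (J : Finset ι)
    (x : ι → ℚ), J.card ≤ n → (∀ i ∈ J, SUnit S (x i)) → ∑ i ∈ J, x i = 0 →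
    (∀ T ⊆ J, T.Nonempty → T ≠ J → ∑ i ∈ T, x i ≠ 0) → ∀ i ∈ J, ∀ j ∈ J, x i / x j ∈ F := by
  classical
  choose F hF hF' using fun m : ℕ => sunit_finite (Fin m) S
  refine ⟨⋃ m ∈ Finset.range (n + 1), F m, ?_, ?_⟩
  · exact Set.Finite.biUnion (Finset.finite_toSet _) fun m _ => hF m
  · intro ι J x hJ hu h0 hT i hi j hj
    rw [Set.mem_iUnion₂]
    refine ⟨J.card, Finset.mem_range.2 (by omega), ?_⟩
    let e : Fin J.card ≃ J := J.equivFin.symm
    have h := hF' J.card (fun k => x (e k)) (fun k => hu _ (e k).2) ?_ ?_ (e.symm ⟨i, hi⟩)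
      (e.symm ⟨j, hj⟩)
    · simpa using h
    · rw [e.sum_comp (fun k : J => x k), Finset.sum_coe_sort J x, h0]
    · intro T hTn hne hz
      apply hT (T.map (e.toEmbedding.trans (Function.Embedding.subtype _)))
      · intro a ha
        obtain ⟨b, _, rfl⟩ := Finset.mem_map.1 ha
        exact (e b).2
      · exact hTn.map
      · intro heq
        apply hne
        ext a
        refine ⟨fun _ => Finset.mem_univ _, fun _ => ?_⟩
        have h1 : ((e a : J) : ι) ∈ T.map (e.toEmbedding.trans (Function.Embedding.subtype _)) := by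
          rw [heq]; exact (e a).2
        obtain ⟨b, hb, hba⟩ := Finset.mem_map.1 h1
        have h2 : b = a := e.injective (Subtype.ext hba)
        rwa [← h2]
      · rw [Finset.sum_map]
        exact hz

/-- Minimal vanishing subsums. -/
lemma exists_min_zero {ι : Type} [DecidableEq ι] (x : ι → ℚ) (T : Finset ι) (hT : T.Nonempty)
    (h0 : ∑ i ∈ T, x i = 0) : ∃ J ⊆ T, J.Nonempty ∧ ∑ i ∈ J, x i = 0 ∧
      ∀ K ⊆ J, K.Nonempty → K ≠ J → ∑ i ∈ K, x i ≠ 0 := by
  induction T using Finset.strongInduction with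
  | H T ih =>
    by_cases h : ∃ K ⊆ T, K.Nonempty ∧ K ≠ T ∧ ∑ i ∈ K, x i = 0
    · obtain ⟨K, hKT, hK, hne, hK0⟩ := h
      obtain ⟨J, hJ, h1, h2, h3⟩ := ih K (hKT.ssubset_of_ne hne) hK hK0
      exact ⟨J, hJ.trans hKT, h1, h2, h3⟩
    · push Not at h
      exact ⟨T, subset_rfl, hT, h0, fun K hK hKn hne => h K hK hKn hne⟩

/-- The number of rational units of `Q` needed for `p ^ K` is unbounded if `p` is not in `Q`. -/
lemma long_pow (Q : Finset ℕ) (p : ℕ) (hp : p.Prime) (hpQ : p ∉ Q) (C : ℕ) :
    ∃ K : ℕ, ∀ (ι : Type) (J : Finset ι) (x : ι → ℚ), (∀ i ∈ J, SUnit Q (x i)) →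
      ∑ i ∈ J, x i = (p : ℚ) ^ K → C < J.card := by
  classical
  have hfact := Fact.mk hp
  obtain ⟨F, hF, hF'⟩ := unif (C + 1) (insert p Q)
  obtain ⟨B, hB⟩ := (hF.image (padicNorm p)).bddAbove
  have hp1 : (1 : ℚ) < p := by exact_mod_cast hp.one_lt
  obtain ⟨K, hK⟩ := pow_unbounded_of_one_lt B hp1
  refine ⟨K, fun ι J => ?_⟩
  induction J using Finset.strongInduction with
  | H J ih =>
    intro x hu hsum
    by_contra hcard
    push Not at hcard
    have hp0 : (p : ℚ) ≠ 0 := by exact_mod_cast hp.ne_zero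
    have hpK : (p : ℚ) ^ K ≠ 0 := pow_ne_zero _ hp0
    -- no vanishing subsums
    have hnv : ∀ T ⊆ J, T.Nonempty → ∑ i ∈ T, x i ≠ 0 := by
      intro T hT hTn h0
      have h1 : ∑ i ∈ J \ T, x i = (p : ℚ) ^ K := by
        have := Finset.sum_sdiff hT (f := x)
        rw [h0, add_zero] at this
        rw [this, hsum]
      have h2 := ih (J \ T) (Finset.sdiff_ssubset hT hTn) x
        (fun i hi => hu i (Finset.mem_sdiff.1 hi).1) h1
      have h3 : (J \ T).card ≤ J.card := Finset.card_le_card Finset.sdiff_subset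
      omega
    have hJ : J.Nonempty := by
      rw [Finset.nonempty_iff_ne_empty]
      rintro rfl
      rw [Finset.sum_empty] at hsum
      exact hpK hsum.symm
    obtain ⟨j, hj⟩ := hJ
    let y : Option ι → ℚ := fun i => i.elim (-(p : ℚ) ^ K) x
    have hmem := hF' (Option ι) (Finset.insertNone J) y
      (by rw [Finset.card_insertNone]; omega) ?_ ?_ ?_ (some j)
      (Finset.some_mem_insertNone.2 hj) none Finset.none_mem_insertNone
    · have h1 : padicNorm p (y (some j) / y none) ≤ B := hB ⟨_, hmem, rfl⟩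
      have h2 : padicNorm p (y (some j)) = 1 := (hu j hj).2 p hp hpQ
      have h3 : padicNorm p (y none) = ((p : ℚ) ^ K)⁻¹ := by
        show padicNorm p (-(p : ℚ) ^ K) = _
        rw [padicNorm.neg]
        rw [padicNorm, if_neg hpK, padicValRat.pow, padicValRat.self hp.one_lt]
        simp
      rw [padicNorm.div, h2, h3, one_div, inv_inv] at h1
      linarith
    · intro i hi
      cases i with
      | none =>
        show SUnit _ (-(p : ℚ) ^ K)
        exact ((SUnit.prime hp (Finset.mem_insert_self _ _)).pow K).neg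
      | some i => exact (hu i (Finset.some_mem_insertNone.1 hi)).mono (Finset.subset_insert _ _)
    · rw [Finset.sum_insertNone]
      show -(p : ℚ) ^ K + ∑ i ∈ J, x i = 0
      rw [hsum]
      ring
    · intro T hT hTn hne h0
      by_cases hnone : none ∈ T
      · -- the complement vanishes
        have h1 : ∑ i ∈ (Finset.insertNone J) \ T, y i = 0 := by
          have := Finset.sum_sdiff hT (f := y)
          rw [h0, add_zero, Finset.sum_insertNone] at this
          rw [this]
          show -(p : ℚ) ^ K + ∑ i ∈ J, x i = 0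
          rw [hsum]
          ring
        have h2 : ((Finset.insertNone J) \ T) =
            (J.filter fun i => some i ∉ T).map Function.Embedding.some := by
          ext a
          cases a with
          | none => simp [hnone]
          | some a => simp
        rw [h2, Finset.sum_map] at h1
        refine hnv _ (Finset.filter_subset _ _) ?_ h1
        by_contra hem
        rw [Finset.not_nonempty_iff_eq_empty, Finset.filter_eq_empty_iff] at hem
        apply hne
        apply Finset.Subset.antisymm hT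
        intro a ha
        cases a with
        | none => exact hnone
        | some a =>
          have := hem (Finset.some_mem_insertNone.1 ha)
          push Not at this
          exact this
      · have h2 : T = (J.filter fun i => some i ∈ T).map Function.Embedding.some := by
          ext a
          cases a with
          | none => simp [hnone]
          | some a =>
            simp only [Finset.mem_map, Finset.mem_filter, Function.Embedding.some_apply,
              Option.some.injEq, exists_eq_right]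
            exact ⟨fun h => ⟨Finset.some_mem_insertNone.1 (hT h), h⟩, fun h => h.2⟩
        rw [h2] at h0 hTn
        rw [Finset.sum_map] at h0
        exact hnv _ (Finset.filter_subset _ _) (Finset.map_nonempty.1 hTn) h0

/-- Sparse sums of `N` powers of `q`, multiplied by `p ^ K`, need `N` times as many units as
`p ^ K`. -/
lemma sparse (Q : Finset ℕ) (p q K m : ℕ) (hp : p.Prime) (hq : q.Prime) (hqQ : q ∈ Q)
    (hm : ∀ (ι : Type) (J : Finset ι) (x : ι → ℚ), (∀ i ∈ J, SUnit Q (x i)) →
      ∑ i ∈ J, x i = (p : ℚ) ^ K → m ≤ J.card) (N D : ℕ) :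
    ∃ A : ℕ, ∀ d ≤ D, ∀ x : Fin d → ℚ, (∀ i, SUnit Q (x i)) →
      ∑ i, x i = (p : ℚ) ^ K * ∑ i : Fin N, (q : ℚ) ^ (A * i) → N * m ≤ d := by
  classical
  obtain ⟨F, hF, hF'⟩ := unif (N + D) (insert p Q)
  obtain ⟨B, hB⟩ := hF.bddAbove
  have hq1 : (1 : ℚ) < q := by exact_mod_cast hq.one_lt
  have hq0 : (q : ℚ) ≠ 0 := by exact_mod_cast hq.ne_zero
  have hp0 : (p : ℚ) ≠ 0 := by exact_mod_cast hp.ne_zero
  obtain ⟨A, hA⟩ := pow_unbounded_of_one_lt B hq1
  refine ⟨A, fun d hd x hx hsum => ?_⟩
  let X : Fin N ⊕ Fin d → ℚ := Sum.elim (fun i => -((p : ℚ) ^ K * (q : ℚ) ^ (A * i))) x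
  have hXu : ∀ i, SUnit (insert p Q) (X i) := by
    intro i
    cases i with
    | inl i =>
      exact (((SUnit.prime hp (Finset.mem_insert_self _ _)).pow K).mul
        ((SUnit.prime hq (Finset.mem_insert_of_mem hqQ)).pow _)).neg
    | inr j => exact (hx j).mono (Finset.subset_insert _ _)
  have key : ∀ T : Finset (Fin N ⊕ Fin d), ∑ i ∈ T, X i = 0 →
      (T.filter fun i => i.isLeft = true).card * m ≤
        (T.filter fun i => ¬ i.isLeft = true).card := by
    intro T
    induction T using Finset.strongInduction with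
    | H T ih =>
      intro hT0
      rcases T.eq_empty_or_nonempty with rfl | hTn
      · simp
      obtain ⟨J, hJT, hJn, hJ0, hJmin⟩ := exists_min_zero X T hTn hT0
      have hJcard : J.card ≤ N + D := by
        calc J.card ≤ Fintype.card (Fin N ⊕ Fin d) := Finset.card_le_univ _
          _ = N + d := by simp
          _ ≤ N + D := by omega
      have hrat := hF' _ J X hJcard (fun i _ => hXu i) hJ0 hJmin
      have hle1 : (J.filter fun i => i.isLeft = true).card ≤ 1 := by
        have haux : ∀ i j : Fin N, j < i → Sum.inl i ∈ J → Sum.inl j ∈ J → False := by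
          intro i j hij hi hj
          have h1 := hB (hrat _ hi _ hj)
          have h2 : X (Sum.inl i) / X (Sum.inl j) = (q : ℚ) ^ (A * ((i : ℕ) - j)) := by
            show -((p : ℚ) ^ K * (q : ℚ) ^ (A * (i : ℕ))) /
              -((p : ℚ) ^ K * (q : ℚ) ^ (A * (j : ℕ))) = _
            rw [neg_div_neg_eq, mul_div_mul_left _ _ (pow_ne_zero _ hp0),
              div_eq_iff (pow_ne_zero _ hq0), ← pow_add]
            congr 1
            have : (j : ℕ) ≤ i := le_of_lt hij
            rw [Nat.mul_sub]
            have := Nat.mul_le_mul_left A this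
            omega
          rw [h2] at h1
          have h3 : (q : ℚ) ^ A ≤ (q : ℚ) ^ (A * ((i : ℕ) - j)) := by
            apply pow_le_pow_right₀ hq1.le
            have : 0 < (i : ℕ) - j := Nat.sub_pos_of_lt hij
            exact Nat.le_mul_of_pos_right _ this
          linarith
        rw [Finset.card_le_one]
        intro a ha b hb
        rw [Finset.mem_filter] at ha hb
        cases a with
        | inr a => simp at ha
        | inl a =>
          cases b with
          | inr b => simp at hb
          | inl b =>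
            rcases lt_trichotomy a b with h | h | h
            · exact (haux b a h hb.1 ha.1).elim
            · rw [h]
            · exact (haux a b h ha.1 hb.1).elim
      have hJineq : (J.filter fun i => i.isLeft = true).card * m ≤
          (J.filter fun i => ¬ i.isLeft = true).card := by
        rcases Nat.eq_zero_or_pos (J.filter fun i => i.isLeft = true).card with h0 | hpos
        · rw [h0, zero_mul]; exact Nat.zero_le _
        · have h1 : (J.filter fun i => i.isLeft = true).card = 1 := by omega
          obtain ⟨a, ha⟩ := Finset.card_eq_one.1 h1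
          have ha' : a ∈ J.filter fun i => i.isLeft = true := by rw [ha]; simp
          rw [Finset.mem_filter] at ha'
          obtain ⟨i, rfl⟩ : ∃ i, a = Sum.inl i := by
            cases a with
            | inl i => exact ⟨i, rfl⟩
            | inr j => simp at ha'
          rw [h1, one_mul]
          have h2 := Finset.sum_filter_add_sum_filter_not J (fun i => i.isLeft = true) X
          rw [ha, Finset.sum_singleton, hJ0] at h2
          have hqi : (q : ℚ) ^ (A * (i : ℕ)) ≠ 0 := pow_ne_zero _ hq0
          apply hm _ (J.filter fun i => ¬ i.isLeft = true)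
            (fun j => X j / (q : ℚ) ^ (A * (i : ℕ)))
          · intro j hj
            rw [Finset.mem_filter] at hj
            cases j with
            | inl j => simp at hj
            | inr j => exact (hx j).div ((SUnit.prime hq hqQ).pow _)
          · rw [← Finset.sum_div, div_eq_iff hqi]
            have h3 : X (Sum.inl i) = -((p : ℚ) ^ K * (q : ℚ) ^ (A * (i : ℕ))) := rfl
            rw [h3] at h2
            linarith
      have hTJ : ∑ i ∈ T \ J, X i = 0 := by
        have := Finset.sum_sdiff hJT (f := X)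
        rw [hJ0, add_zero] at this
        rw [this, hT0]
      have h4 := ih (T \ J) (Finset.sdiff_ssubset hJT hJn) hTJ
      have h5 : ∀ (P : Fin N ⊕ Fin d → Prop) [DecidablePred P], (T.filter P).card =
          ((T \ J).filter P).card + (J.filter P).card := by
        intro P _
        rw [← Finset.card_union_of_disjoint]
        · congr 1
          rw [← Finset.filter_union, Finset.sdiff_union_of_subset hJT]
        · exact Finset.disjoint_filter_filter Finset.sdiff_disjoint
      rw [h5, h5, add_mul]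
      omega
  have h1 := key Finset.univ (by
    rw [Fintype.sum_sum_type]
    show ∑ i : Fin N, -((p : ℚ) ^ K * (q : ℚ) ^ (A * (i : ℕ))) + ∑ j, x j = 0
    rw [hsum, Finset.sum_neg_distrib, Finset.mul_sum]
    ring)
  have h2 : (Finset.univ.filter fun i : Fin N ⊕ Fin d => i.isLeft = true).card = N := by
    have h4 : (Finset.univ.filter fun i : Fin N ⊕ Fin d => i.isLeft = true) =
        Finset.univ.map Function.Embedding.inl := by
      ext a
      cases a <;> simp
    rw [h4, Finset.card_map, Finset.card_univ, Fintype.card_fin]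
  have h3 : (Finset.univ.filter fun i : Fin N ⊕ Fin d => ¬ i.isLeft = true).card = d := by
    have h4 := Finset.card_filter_add_card_filter_not (s := (Finset.univ : Finset (Fin N ⊕ Fin d)))
      (fun i => i.isLeft = true)
    rw [h2, Finset.card_univ, Fintype.card_sum, Fintype.card_fin, Fintype.card_fin] at h4
    omega
  rw [h2, h3] at h1
  exact h1

lemma sunit_of_star {Q : Finset ℕ} (hQ : ∀ p ∈ Q, p.Prime) {s : ℤ}
    (hs : s ∈ star (Q : Set ℕ)) : SUnit Q (s : ℚ) := by
  unfold star at hs
  induction hs using Submonoid.closure_induction with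
  | mem x hx =>
    obtain ⟨p, hp, rfl⟩ := hx
    have := SUnit.prime (hQ p hp) hp
    simpa using this
  | one => simpa using SUnit.one Q
  | mul x y _ _ hx hy =>
    push_cast
    exact hx.mul hy

/-- The main step: `Q` is a finite set of primes and `p` is a prime of `Q'` which is not in `Q`. -/
theorem not_coarselyIsomorphic {Q : Finset ℕ} (hQ : ∀ p ∈ Q, p.Prime) (hne : Q.Nonempty)
    {Q' : Set ℕ} {p : ℕ} (hp : p.Prime) (hpQ' : p ∈ Q') (hpQ : p ∉ Q) :
    ¬ CoarselyIsomorphic (wordDist Q') (wordDist (Q : Set ℕ)) := by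
  intro h
  obtain ⟨B, hB⟩ := mul_lipschitz h
  obtain ⟨K, hK⟩ := long_pow Q p hp hpQ B
  obtain ⟨q, hqQ⟩ := hne
  have hq := hQ q hqQ
  have hc : ((p ^ K : ℕ) : ℤ) ∈ star Q' := by
    push_cast
    exact pow_mem (Submonoid.subset_closure (Set.mem_image_of_mem _ hpQ')) K
  obtain ⟨D, hD⟩ := hB (p ^ K) hc
  obtain ⟨A, hA⟩ := sparse Q p q K (B + 1) hp hq hqQ
    (fun ι J x hx hs => hK ι J x hx hs) (D + 1) (B * (D + 1) + D)
  -- the sparse sum
  have hy : wordNorm (Q : Set ℕ) (∑ i : Fin (D + 1), (q : ℤ) ^ (A * (i : ℕ))) ≤ D + 1 := by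
    have h1 := wordNorm_le_length (Q : Set ℕ)
      (List.ofFn fun i : Fin (D + 1) => (q : ℤ) ^ (A * (i : ℕ))) (by
        intro s hs
        obtain ⟨i, rfl⟩ := (List.mem_ofFn' _ _).1 hs
        left
        exact pow_mem (Submonoid.subset_closure (Set.mem_image_of_mem _ hqQ)) _)
    rwa [List.sum_ofFn, List.length_ofFn] at h1
  have h2 := hD (∑ i : Fin (D + 1), (q : ℤ) ^ (A * (i : ℕ)))
  obtain ⟨l, hl, hl1, hl2⟩ := exists_list (Q : Set ℕ)
    (((p ^ K : ℕ) : ℤ) * ∑ i : Fin (D + 1), (q : ℤ) ^ (A * (i : ℕ)))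
  have h3 : l.length ≤ B * (D + 1) + D := by
    rw [hl]
    refine h2.trans ?_
    have := Nat.mul_le_mul_left B hy
    omega
  have h4 := hA l.length h3 (fun i => ((l.get i : ℤ) : ℚ)) (by
    intro i
    rcases hl1 _ (List.get_mem l i) with h | h
    · exact sunit_of_star hQ h
    · have := (sunit_of_star hQ h).neg
      push_cast at this
      rwa [neg_neg] at this) (by
    have h5 : ∑ i : Fin l.length, l.get i = l.sum := by
      rw [← List.sum_ofFn, List.ofFn_get]
    have h6 : ((∑ i : Fin l.length, l.get i : ℤ) : ℚ) = ∑ i : Fin l.length, ((l.get i : ℤ) : ℚ) := by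
      push_cast; rfl
    rw [← h6, h5, hl2]
    push_cast
    rfl)
  have h5 : (D + 1) * (B + 1) = B * (D + 1) + (D + 1) := by ring
  omega

lemma coarselyIsomorphic_refl (d : ℤ → ℤ → ℕ) (hd : ∀ x, d x x = 0) : CoarselyIsomorphic d d :=
  ⟨id, ⟨fun r => ⟨r, fun _ _ h => h⟩, 0, fun _ _ => (hd _).le⟩, id, fun r => ⟨r, fun _ _ h => h⟩,
    0, fun _ => (hd _).le, fun _ => (hd _).le⟩

/-- Let `Q₁`, `Q₂` be nonempty sets of primes, at least one of them finite. The coarse groups
`(ℤ, d_{Q₁})` and `(ℤ, d_{Q₂})` are coarsely isomorphic if and only if `Q₁ = Q₂`. -/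
theorem result (Q₁ Q₂ : Set ℕ) (h₁ : ∀ p ∈ Q₁, p.Prime) (h₂ : ∀ p ∈ Q₂, p.Prime)
    (hne₁ : Q₁.Nonempty) (hne₂ : Q₂.Nonempty) (hfin : Q₁.Finite ∨ Q₂.Finite) :
    CoarselyIsomorphic (wordDist Q₁) (wordDist Q₂) ↔ Q₁ = Q₂ := by
  constructor
  · -- one finite set
    have main : ∀ (Q Q' : Set ℕ), (∀ p ∈ Q, p.Prime) → (∀ p ∈ Q', p.Prime) → Q.Nonempty →
        Q'.Nonempty → Q.Finite → CoarselyIsomorphic (wordDist Q') (wordDist Q) → Q = Q' := by
      intro Q Q' hQ hQ' hne hne' hfin h
      have hsub : Q' ⊆ Q := by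
        intro p hp
        by_contra hpQ
        have h1 := not_coarselyIsomorphic (Q := hfin.toFinset) (Q' := Q')
          (fun q hq => hQ q (by simpa using hq)) (by simpa using hne) (hQ' p hp) hp
          (by simpa using hpQ)
        rw [Set.Finite.coe_toFinset] at h1
        exact h1 h
      have hfin' : Q'.Finite := hfin.subset hsub
      refine Set.Subset.antisymm ?_ hsub
      intro p hp
      by_contra hpQ
      have h1 := not_coarselyIsomorphic (Q := hfin'.toFinset) (Q' := Q)
        (fun q hq => hQ' q (by simpa using hq)) (by simpa using hne') (hQ p hp) hp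
        (by simpa using hpQ)
      rw [Set.Finite.coe_toFinset] at h1
      exact h1 (coarselyIsomorphic_symm h)
    intro h
    rcases hfin with hf | hf
    · exact main Q₁ Q₂ h₁ h₂ hne₁ hne₂ hf (coarselyIsomorphic_symm h)
    · exact (main Q₂ Q₁ h₂ h₁ hne₂ hne₁ hf h).symm
  · rintro rfl
    exact coarselyIsomorphic_refl _ fun x => by simp [wordDist, wordNorm_zero]

end Pool.Agent.Results.MP_584ea6_al.FiniteSets
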